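import Pool.Agent.H16.TK.Stmt2

/-! EGA: the transferred sequence is the canonical sequence of the second structure. -/

set_option autoImplicit false

open Set

namespace Pool.Agent.TK

private lemma cc_length {q t : ℕ → List ℕ} (h : ∀ n, (t n).length = (q n).length) (n : ℕ) :
    (cc q n).length = (cc t n).length := by
  induction n with
  | zero => rfl
  | succ n ih => simp only [cc, List.length_append, ih, h n]

theorem pf_EGA {C : Type} {c0 : C} (hENX : ENX C c0) (hNFA : NFA C c0) : EGA C c0 := by
  intro s ρ hs hρ M N w w' a a' D D' hM hN hw' hD hD' hlen hTP P A S q t hCS hA0 hq htl htD hbf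
  obtain ⟨hF, -, -⟩ := hNFA M hM w P A S hCS
  have hPA : P ⊆ ms a := hA0 ▸ hCS.P0
  have hPI : ∀ n, PI M N ((cc q n).zip (cc t n) ++ a.zip a') := fun n => bf_PI (hbf n)
  have hPI0 : PI M N (a.zip a') := (hPI 0).mono (fun z hz => by
    simp only [List.mem_append]; exact Or.inr hz)
  have himg : img a a' P ⊆ ms a' := by
    rintro y ⟨x, hx, hxy⟩
    exact (List.of_mem_zip hxy).2
  have himg2 : ∀ z ∈ a.zip a', (z.1 ∈ P ↔ z.2 ∈ img a a' P) := by
    intro z hz
    constructor
    · intro h; exact ⟨z.1, h, hz⟩
    · rintro ⟨x, hx, hxz⟩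
      have := (hPI0.1 (x, z.2) hxz z hz).2 rfl
      exact this ▸ hx
  have hcpN : IsCp N (ms a') D' := by
    rw [← hD']; exact hw'.1 _ (ms_finite a')
  have hAn : ∀ n, A n = ms (a ++ cc q n) := by
    intro n
    induction n with
    | zero => simp only [cc, List.append_nil]; exact hA0
    | succ n ih =>
      rw [hCS.succ n, ih, ← hq n, ms_append, ms_append]
      simp only [cc, ms_append, union_assoc]
  have hwA : ∀ n, w (A n) ⊆ D := by
    intro n
    induction n with
    | zero => rw [hA0, hD]
    | succ n ih => exact (hF n).2.2.2.2.2.2.1.trans ih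
  have hqD : ∀ n, ∀ z ∈ q n, z ∈ D := by
    intro n z hz
    have : z ∈ S n := by rw [← hq n]; exact hz
    exact hwA n ((hF n).2.2.2.2.1 this)
  have hccD : ∀ n, ∀ z ∈ cc q n, z ∈ D := by
    intro n
    induction n with
    | zero => intro z hz; simp [cc] at hz
    | succ n ih =>
      intro z hz
      simp only [cc, List.mem_append] at hz
      rcases hz with hz | hz
      · exact ih z hz
      · exact hqD n z hz
  have hccD' : ∀ n, ∀ z ∈ cc t n, z ∈ D' := by
    intro n
    induction n with
    | zero => intro z hz; simp [cc] at hz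
    | succ n ih =>
      intro z hz
      simp only [cc, List.mem_append] at hz
      rcases hz with hz | hz
      · exact ih z hz
      · exact htD n z hz
  refine ⟨hw', ms_finite _, ?_, ?_, ?_, ?_⟩
  · simp only [cc, List.append_nil]; exact himg
  · obtain ⟨u, ⟨huD, x, hxD, hux⟩, huP⟩ := hCS.q0
    have hua : u ∈ a := by
      have := (hF 0).2.2.2.2.2.2.2.2.2 ⟨huD, x, hxD, hux⟩
      rw [hA0] at this; exact this
    obtain ⟨i, hi, rfl⟩ := List.mem_iff_getElem.1 hua
    have hi' : i < a'.length := hlen ▸ hi
    have hz : (a[i], a'[i]) ∈ a.zip a' := by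
      rw [List.mem_iff_getElem]
      refine ⟨i, by simpa using ⟨hi, hi'⟩, by simp⟩
    have hx : x ∈ D := by rw [← hD, ← hA0]; exact hxD
    obtain ⟨y, hy, hyD, hb⟩ := lim_ext (RLe.lim _ _ _ _ _ _ (hρ _ _ _ _ _ (hbf 0))) [x] (by
      intro z hz; rw [List.mem_singleton] at hz; rw [hz]; exact hx)
    obtain ⟨y0, rfl⟩ := List.length_eq_one_iff.1 hy
    have hb' : PI M N ((x, y0) :: a.zip a') := (bf_PI hb).mono (by
      intro z hz
      simp only [List.zip_cons_cons, List.zip_nil_right, List.mem_append, List.mem_cons,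
        cc, List.not_mem_nil, false_or, or_false] at hz ⊢
      exact hz)
    have hy0 : y0 ∈ D' := hyD y0 (List.mem_singleton.2 rfl)
    refine ⟨a'[i], ⟨?_, y0, ?_, ?_⟩, ?_⟩
    · simp only [cc, List.append_nil, hD']
      intro h
      exact Set.disjoint_left.1 hcpN.disj h (List.getElem_mem hi')
    · simp only [cc, List.append_nil, hD']; exact hy0
    · rw [← hb'.2.1 (a[i], a'[i]) (List.mem_cons_of_mem _ hz) (x, y0) List.mem_cons_self]
      exact hux
    · intro h
      exact huP ((himg2 _ hz).2 h)
  · intro n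
    have h := hENX s hs M N w w' a a' D D' hM hN hCS.dir hw' hD hD' hlen hTP P (img a a' P)
      hPA himg himg2 (cc q n) (cc t n) (q n) (t n) (cc_length htl n) (htl n).symm
      (hccD n) (hccD' n) (hqD n) (htD n) ?_ ?_
    · exact h
    · refine bf_mono (hρ _ _ _ _ _ (hbf (n + 1))) ?_
      intro z hz
      simp only [cc, List.zip_append (cc_length htl n), List.mem_append] at hz ⊢
      tauto
    · have := hCS.next n
      rw [hAn n, ← hq n] at this
      exact this
  · intro n
    simp only [cc, ms_append, union_assoc]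

end Pool.Agent.TK
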