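import Pool.Agent.H16.TK.Stmt2

/-! NEX: existence of the closest smallest separator. -/

set_option autoImplicit false

open Set

namespace Pool.Agent.TK

theorem pf_NEX {C : Type} {c0 : C} (hNE1 : NE1 C c0) (hNMI : NMI C c0) (hUNC : UNC C c0) :
    NEX C c0 := by
  classical
  intro M hM w hw P A hA hPA hDm
  -- the smallest size
  have hex : ∃ m, ∃ B, Adm M w P A B ∧ B.ncard = m := by
    obtain ⟨B, hB⟩ := hNE1 M hM w hw P A hA hPA hDm
    exact ⟨_, B, hB, rfl⟩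
  obtain ⟨B0, hB0, hB0m⟩ := Nat.find_spec hex
  set m := Nat.find hex with hm
  have hmin : ∀ B, Adm M w P A B → m ≤ B.ncard := fun B hB => Nat.find_min' hex ⟨B, hB, rfl⟩
  let K := {B : Set ℕ // Adm M w P A B ∧ B.ncard = m}
  have hK : ∀ B : K, Adm M w P A B.1 ∧ B.1.ncard = m := fun B => B.2
  have : Nonempty K := ⟨⟨B0, hB0, hB0m⟩⟩
  have hdir : ∀ B1 B2 : K, ∃ B3 : K, w (A ∪ B3.1) = w (A ∪ B1.1) ∪ w (A ∪ B2.1) := by
    intro B1 B2
    obtain ⟨B3, h3, h4, h5⟩ := hUNC M hM w hw P A B1.1 B2.1 hA B1.2.1 B2.2.1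
      (fun B' hB' => by rw [B1.2.2]; exact hmin B' hB') (by rw [B1.2.2, B2.2.2])
    exact ⟨⟨B3, h3, by rw [h4, B1.2.2]⟩, h5⟩
  have hcp : ∀ B : K, IsCp M (A ∪ B.1) (w (A ∪ B.1)) := fun B => hw.1 _ (hA.union B.2.1.1)
  have hwA : IsCp M A (w A) := hw.1 A hA
  have hsub : ∀ B : K, w (A ∪ B.1) ⊆ w A := fun B =>
    hw.2 _ _ (hA.union B.2.1.1) subset_union_left
  set U : Set ℕ := ⋃ B : K, w (A ∪ B.1) with hU
  have hUcd : Cd M U := by
    refine Cd.directed (fun B => (hcp B).cd hM) ?_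
    intro B1 B2
    obtain ⟨B3, h3⟩ := hdir B1 B2
    exact ⟨B3, by rw [h3]; exact subset_union_left, by rw [h3]; exact subset_union_right⟩
  have hnot : ∀ x, x ∉ U → ∀ B : K, x ∉ w (A ∪ B.1) := fun x hx B h =>
    hx (mem_iUnion.2 ⟨B, h⟩)
  set S : Set ℕ := Nb M U ∩ w A with hS
  -- every finite part of S lies in one smallest separator
  have hfin : ∀ F : Finset ℕ, (F : Set ℕ) ⊆ S → ∃ B : K, ∀ x ∈ F, x ∈ Nb M (w (A ∪ B.1)) := by
    intro F
    induction F using Finset.induction_on with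
    | empty => intro _; exact ⟨⟨B0, hB0, hB0m⟩, by simp⟩
    | insert x F hx ih =>
      intro hF
      obtain ⟨B1, hB1⟩ := ih (fun y hy => hF (by simp at hy ⊢; exact Or.inr hy))
      have hxS : x ∈ S := hF (by simp)
      obtain ⟨⟨hxU, s, hs, hE⟩, -⟩ := hxS
      obtain ⟨B2, hB2⟩ := mem_iUnion.1 hs
      obtain ⟨B3, hB3⟩ := hdir B1 B2
      refine ⟨B3, ?_⟩
      intro y hy
      rcases Finset.mem_insert.1 hy with rfl | hy'
      · exact ⟨hnot _ hxU B3, s, by rw [hB3]; exact Or.inr hB2, hE⟩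
      · have hyS : y ∈ S := hF (by simp at hy ⊢; exact hy)
        obtain ⟨-, s', hs', hE'⟩ := hB1 y hy'
        exact ⟨hnot _ hyS.1.1 B3, s', by rw [hB3]; exact Or.inl hs', hE'⟩
  have hfin2 : ∀ F : Finset ℕ, (F : Set ℕ) ⊆ S → F.card ≤ m := by
    intro F hF
    obtain ⟨B, hB⟩ := hfin F hF
    have hBeq : B.1 = Nb M (w (A ∪ B.1)) ∩ w A :=
      hNMI M hM w hw P A B.1 hA B.2.1 (fun B' hB' => by rw [B.2.2]; exact hmin B' hB')
    have hFB : (F : Set ℕ) ⊆ B.1 := by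
      intro x hx
      rw [hBeq]
      exact ⟨hB x hx, (hF hx).2⟩
    rw [← B.2.2, ← Set.ncard_coe_finset]
    exact Set.ncard_le_ncard hFB B.2.1.1
  have hSfin : S.Finite := by
    by_contra h
    obtain ⟨F, hF, hFc⟩ := Set.Infinite.exists_subset_card_eq (s := S) h (m + 1)
    have := hfin2 F hF
    omega
  have hSm : S.ncard ≤ m := by
    have := hfin2 hSfin.toFinset (by simp)
    rwa [Set.ncard_eq_toFinset_card S hSfin]
  -- the direction chooses U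
  have hUcp : IsCp M (A ∪ S) U := by
    refine (isCp_iff hM).2 ⟨hUcd, ?_, ?_⟩
    · rw [Set.disjoint_left]
      rintro x hx (hxA | hxS)
      · obtain ⟨B, hB⟩ := mem_iUnion.1 hx
        exact Set.disjoint_left.1 (hcp B).disj hB (Or.inl hxA)
      · exact hxS.1.1 hx
    · rintro x ⟨hxU, s, hs, hE⟩
      by_cases hxA : x ∈ A
      · exact Or.inl hxA
      · refine Or.inr ⟨⟨hxU, s, hs, hE⟩, ?_⟩
        by_contra hxw
        obtain ⟨B, hB⟩ := mem_iUnion.1 hs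
        exact hxA (hwA.nb hM ⟨hxw, s, hsub B hB, hE⟩)
  have hUw : w (A ∪ S) = U := by
    have h1 : (w (A ∪ S ∪ B0)).Nonempty :=
      (hw.1 _ ((hA.union hSfin).union hB0.1)).nonempty
    obtain ⟨x, hx⟩ := h1
    have h2 : x ∈ w (A ∪ S) := hw.2 _ _ ((hA.union hSfin).union hB0.1) subset_union_left hx
    have h3 : x ∈ w (A ∪ B0) := hw.2 _ _ ((hA.union hSfin).union hB0.1)
      (union_subset_union_left _ subset_union_left) hx
    exact IsCp.eq_of_inter hM (hw.1 _ (hA.union hSfin)) hUcp h2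
      (mem_iUnion.2 ⟨(⟨B0, hB0, hB0m⟩ : K), h3⟩)
  have hSadm : Adm M w P A S := by
    refine ⟨hSfin, inter_subset_right, ?_⟩
    rw [hUw, Set.disjoint_left]
    rintro x ⟨hxU, s, hs, hE⟩ hxQ
    obtain ⟨B, hB⟩ := mem_iUnion.1 hs
    exact Set.disjoint_left.1 B.2.1.2.2 ⟨hnot x hxU B, s, hB, hE⟩ hxQ
  have hSeq : S.ncard = m := le_antisymm hSm (hmin S hSadm)
  refine ⟨S, hSadm.1, hSadm.2.1, hSadm.2.2, ?_⟩
  intro B hBf hBw hBd
  have hB : Adm M w P A B := ⟨hBf, hBw, hBd⟩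
  refine ⟨by rw [hSeq]; exact hmin B hB, ?_⟩
  intro hBc
  rw [hUw]
  exact subset_iUnion (fun B : K => w (A ∪ B.1)) ⟨B, hB, by rw [hBc, hSeq]⟩

end Pool.Agent.TK
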